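import Mathlib
import Pool.Agent.Helper82.InfoIssuesProof

/-!
# Schematic validities of the dynamic logic of information and issues are decidable

The definitions are in `Pool.Agent.Helper82.InfoIssuesDefs`, the proof is in
`Pool.Agent.Helper82.InfoIssuesProof`.
-/

set_option autoImplicit false

namespace Pool.Agent.Results.MP_61152a_lc.SchematicValidityDecidable

open Pool.Agent.Helper82.InfoIssues

universe u

/-- **Main theorem.** The set of (Goedel numbers of) schematically valid formulas of the dynamic
logic of information and issues is decidable. -/
theorem result : ComputablePred fun n : ℕ => ∃ φ : Form, code φ = n ∧ SchematicallyValid.{u} φ :=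
  schematic_decidable

end Pool.Agent.Results.MP_61152a_lc.SchematicValidityDecidable
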